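import Pool.Agent.Helper83.CB.Defs2

/-!
# Module CHART: the chart `(X, Z) ↦ exp X exp Z`
-/

open Filter Topology

namespace Pool.Agent.Helper83.CB

theorem chart_gen {A : Type} [NormedRing A] [NormedAlgebra ℝ A] [CompleteSpace A]
    [FiniteDimensional ℝ A] (m k : Submodule ℝ A) (h : IsCompl m k) :
    ∃ ρ > 0, ∃ C > 0,
    (∀ X ∈ m, ∀ X' ∈ m, ∀ Z ∈ k, ∀ Z' ∈ k, ‖X‖ < ρ → ‖X'‖ < ρ → ‖Z‖ < ρ → ‖Z'‖ < ρ →
      ‖X - X'‖ + ‖Z - Z'‖ ≤
        C * ‖NormedSpace.exp X * NormedSpace.exp Z - NormedSpace.exp X' * NormedSpace.exp Z'‖) ∧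
    (∀ Y : A, ‖Y - 1‖ < ρ → ∃ X ∈ m, ∃ Z ∈ k, ‖X‖ ≤ C * ‖Y - 1‖ ∧ ‖Z‖ ≤ C * ‖Y - 1‖ ∧
      NormedSpace.exp X * NormedSpace.exp Z = Y) := by
  let e : (m × k) ≃L[ℝ] A := (Submodule.prodEquivOfIsCompl m k h).toContinuousLinearEquiv
  let F : m × k → A := fun p => NormedSpace.exp (p.1 : A) * NormedSpace.exp (p.2 : A)
  have hexp : HasStrictFDerivAt (NormedSpace.exp : A → A) (1 : A →L[ℝ] A) 0 :=
    hasStrictFDerivAt_exp_zero
  have hF : HasStrictFDerivAt F (e : (m × k) →L[ℝ] A) 0 := by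
    have h1 : HasStrictFDerivAt (fun p : m × k => NormedSpace.exp (p.1 : A))
        ((1 : A →L[ℝ] A).comp (m.subtypeL.comp (ContinuousLinearMap.fst ℝ m k))) 0 := by
      apply HasStrictFDerivAt.comp (g := (NormedSpace.exp : A → A))
      · exact hexp
      · exact (m.subtypeL.comp (ContinuousLinearMap.fst ℝ m k)).hasStrictFDerivAt
    have h2 : HasStrictFDerivAt (fun p : m × k => NormedSpace.exp (p.2 : A))
        ((1 : A →L[ℝ] A).comp (k.subtypeL.comp (ContinuousLinearMap.snd ℝ m k))) 0 := by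
      apply HasStrictFDerivAt.comp (g := (NormedSpace.exp : A → A))
      · exact hexp
      · exact (k.subtypeL.comp (ContinuousLinearMap.snd ℝ m k)).hasStrictFDerivAt
    have h3 := h1.mul' h2
    refine h3.congr_fderiv ?_
    ext p
    · simp [e]
    · simp [e]
  have hF0 : F 0 = 1 := by simp [F]
  set g := hF.localInverse F e 0 with hg
  obtain ⟨K, s, hs, hK⟩ := hF.to_localInverse.exists_lipschitzOnWith
  rw [hF0] at hs
  have hK' : ∀ x ∈ s, ∀ y ∈ s, ‖g x - g y‖ ≤ K * ‖x - y‖ := by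
    intro x hx y hy
    have := hK.dist_le_mul x hx y hy
    rwa [dist_eq_norm, dist_eq_norm] at this
  have hleft : {p | g (F p) = p} ∩ F ⁻¹' s ∈ 𝓝 (0 : m × k) := by
    apply Filter.inter_mem
    · exact hF.eventually_left_inverse
    · apply hF.continuousAt.preimage_mem_nhds
      rw [hF0]
      exact hs
  have hright : {y | F (g y) = y} ∩ s ∈ 𝓝 (1 : A) := by
    apply Filter.inter_mem _ hs
    have := hF.eventually_right_inverse
    rw [hF0] at this
    exact this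
  obtain ⟨ρ₁, hρ₁, hb₁⟩ := Metric.mem_nhds_iff.mp hleft
  obtain ⟨ρ₂, hρ₂, hb₂⟩ := Metric.mem_nhds_iff.mp hright
  refine ⟨min ρ₁ ρ₂, lt_min hρ₁ hρ₂, 2 * K + 1, by positivity, ?_, ?_⟩
  · intro X hX X' hX' Z hZ Z' hZ' nX nX' nZ nZ'
    have hp : ((⟨X, hX⟩, ⟨Z, hZ⟩) : m × k) ∈ {p | g (F p) = p} ∩ F ⁻¹' s := by
      apply hb₁
      rw [Metric.mem_ball, dist_zero_right, Prod.norm_def]
      exact max_lt (lt_of_lt_of_le nX (min_le_left _ _)) (lt_of_lt_of_le nZ (min_le_left _ _))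
    have hp' : ((⟨X', hX'⟩, ⟨Z', hZ'⟩) : m × k) ∈ {p | g (F p) = p} ∩ F ⁻¹' s := by
      apply hb₁
      rw [Metric.mem_ball, dist_zero_right, Prod.norm_def]
      exact max_lt (lt_of_lt_of_le nX' (min_le_left _ _)) (lt_of_lt_of_le nZ' (min_le_left _ _))
    have h1 := hK' _ hp.2 _ hp'.2
    rw [hp.1, hp'.1, Prod.norm_def] at h1
    have h2 : ‖X - X'‖ ≤ K * ‖NormedSpace.exp X * NormedSpace.exp Z -
        NormedSpace.exp X' * NormedSpace.exp Z'‖ := (le_max_left _ _).trans h1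
    have h3 : ‖Z - Z'‖ ≤ K * ‖NormedSpace.exp X * NormedSpace.exp Z -
        NormedSpace.exp X' * NormedSpace.exp Z'‖ := (le_max_right _ _).trans h1
    have h4 := norm_nonneg (NormedSpace.exp X * NormedSpace.exp Z -
        NormedSpace.exp X' * NormedSpace.exp Z')
    linarith
  · intro Y hY
    have hYm : Y ∈ {y | F (g y) = y} ∩ s := by
      apply hb₂
      rw [Metric.mem_ball, dist_eq_norm]
      exact lt_of_lt_of_le hY (min_le_right _ _)
    have h1m : (1 : A) ∈ s := mem_of_mem_nhds hs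
    have hg1 : g 1 = 0 := by
      have := hF.localInverse_apply_image
      rw [hF0] at this
      exact this
    have h1 := hK' Y hYm.2 1 h1m
    rw [hg1, sub_zero, Prod.norm_def] at h1
    have h4 := norm_nonneg (Y - 1)
    have hK0 : (0 : ℝ) ≤ K := K.coe_nonneg
    have h5 : (K : ℝ) * ‖Y - 1‖ ≤ (2 * K + 1) * ‖Y - 1‖ := by
      apply mul_le_mul_of_nonneg_right _ h4
      linarith
    refine ⟨((g Y).1 : A), (g Y).1.2, ((g Y).2 : A), (g Y).2.2, ?_, ?_, hYm.1⟩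
    · exact ((le_max_left _ _).trans h1).trans h5
    · exact ((le_max_right _ _).trans h1).trans h5

theorem st_CHART : ST_CHART := fun _ m k h => chart_gen m k h

end Pool.Agent.Helper83.CB
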