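import Pool.Agent.Helper83.CB.Defs2

/-!
# Module CS: the closed subgroup theorem
-/

open Filter Topology

namespace Pool.Agent.Helper83.CB

section general

variable {A : Type} [NormedRing A] [NormedAlgebra ℝ A] [CompleteSpace A]

theorem cs_exp_neg (X : A) : NormedSpace.exp X * NormedSpace.exp (-X) = 1 := by
  let _ : NormedAlgebra ℚ A := NormedAlgebra.restrictScalars ℚ ℝ A
  rw [← NormedSpace.exp_add_of_commute (Commute.neg_right (Commute.refl X)), add_neg_cancel,
    NormedSpace.exp_zero]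

theorem cs_factor (X Z g : A) (h : NormedSpace.exp X * NormedSpace.exp Z = g) :
    NormedSpace.exp X = g * NormedSpace.exp (-Z) := by
  rw [← h, mul_assoc, cs_exp_neg, mul_one]

omit [CompleteSpace A] in
theorem cs_neg (Z : A) : (-1 : ℝ) • Z = -Z := by rw [neg_smul, one_smul]

/-- convergence of difference quotients of the exponential -/
theorem cs_quot (d : ℕ → A) (c : ℕ → ℝ) (X : A) (hd : Tendsto d atTop (𝓝 0))
    (hc : Tendsto (fun j => c j • d j) atTop (𝓝 X)) :
    Tendsto (fun j => c j • (NormedSpace.exp (d j) - 1)) atTop (𝓝 X) := by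
  have h0 : HasFDerivAt (NormedSpace.exp : A → A) (1 : A →L[ℝ] A) 0 :=
    hasStrictFDerivAt_exp_zero.hasFDerivAt
  have h1 := (hasFDerivWithinAt_univ.mpr h0).lim (c := c) (d := d) (l := atTop) (v := X) hd
    (Eventually.of_forall fun _ => Set.mem_univ _) hc
  have h2 : Tendsto (fun j => c j • (NormedSpace.exp (0 + d j) - NormedSpace.exp (0 : A)))
    atTop (𝓝 X) := h1
  refine h2.congr fun j => ?_
  rw [zero_add, NormedSpace.exp_zero]


omit [CompleteSpace A] in
theorem cs_normalise [FiniteDimensional ℝ A] (m : Submodule ℝ A) (X : ℕ → A)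
    (hX : ∀ j, X j ∈ m) (h0 : ∀ j, X j ≠ 0) :
    ∃ (Y : A) (φ : ℕ → ℕ), StrictMono φ ∧ Y ∈ m ∧ ‖Y‖ = 1 ∧
      Tendsto (fun j => ‖X (φ j)‖⁻¹ • X (φ j)) atTop (𝓝 Y) := by
  have hproper : ProperSpace A := FiniteDimensional.proper_real A
  have hmem : ∀ j, ‖X j‖⁻¹ • X j ∈ Metric.sphere (0 : A) 1 := by
    intro j
    rw [mem_sphere_zero_iff_norm, norm_smul, norm_inv, norm_norm,
      inv_mul_cancel₀ (norm_ne_zero_iff.mpr (h0 j))]
  obtain ⟨Y, hY, φ, hφ, hlim⟩ := (isCompact_sphere (0 : A) 1).tendsto_subseq hmem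
  refine ⟨Y, φ, hφ, ?_, mem_sphere_zero_iff_norm.mp hY, hlim⟩
  exact (Submodule.closed_of_finiteDimensional m).mem_of_tendsto hlim
    (Eventually.of_forall fun j => m.smul_mem _ (hX _))

end general

theorem st_CS (hCHART : ST_CHART) : ST_CS := by
  intro n N0 hN hU k hk ε hε
  obtain ⟨m, hm⟩ := Submodule.exists_isCompl k
  obtain ⟨ρ, hρ, C, hC, -, hch⟩ := hCHART n m k hm.symm
  by_contra hcon
  push Not at hcon
  have hδ : ∀ j : ℕ, 0 < min (min ρ (ε / (C + 1))) (1 / ((j : ℝ) + 1)) := by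
    intro j
    apply lt_min (lt_min hρ (by positivity)) (by positivity)
  choose g hg hgd hgn using fun j : ℕ => hcon _ (hδ j)
  have hg1 : ∀ j, ‖g j - 1‖ < ρ := fun j =>
    lt_of_lt_of_le (hgd j) ((min_le_left _ _).trans (min_le_left _ _))
  have hg2 : ∀ j, ‖g j - 1‖ < ε / (C + 1) := fun j =>
    lt_of_lt_of_le (hgd j) ((min_le_left _ _).trans (min_le_right _ _))
  have hg3 : ∀ j : ℕ, ‖g j - 1‖ ≤ 1 / ((j : ℝ) + 1) := fun j =>
    (hgd j).le.trans (min_le_right _ _)
  choose X hXm Z hZk hXn hZn hXZ using fun j => hch (g j) (hg1 j)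
  have hX0 : ∀ j, X j ≠ 0 := by
    intro j h0
    have h1 := hXZ j
    rw [h0, NormedSpace.exp_zero, one_mul] at h1
    refine hgn j (Z j) (hZk j) ?_ h1
    have h2 := hg2 j
    rw [lt_div_iff₀ (by linarith)] at h2
    have h3 := norm_nonneg (g j - 1)
    have h4 := hZn j
    nlinarith
  have hPP : ∀ j, NormedSpace.exp (X j) ∈ PP N0 N0 := by
    intro j z
    have h1 : NormedSpace.exp (X j) = g j * NormedSpace.exp (-(Z j)) :=
      cs_factor (X j) (Z j) (g j) (hXZ j)
    have h2 : NormedSpace.exp (-(Z j)) ∈ PP N0 N0 := by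
      have h3 := (hk.mem (Z j)).mp (hZk j) (-1)
      have h4 : (-1 : ℝ) • Z j = -(Z j) := cs_neg (Z j)
      rwa [h4] at h3
    rw [h1]
    show N0 (g j (NormedSpace.exp (-(Z j)) z)) = N0 z
    rw [hg j, h2 z]
  have hXlim : Tendsto X atTop (𝓝 0) := by
    rw [tendsto_zero_iff_norm_tendsto_zero]
    have h1 : Tendsto (fun j : ℕ => C * (1 / ((j : ℝ) + 1))) atTop (𝓝 0) := by
      have := tendsto_one_div_add_atTop_nhds_zero_nat.const_mul C
      rwa [mul_zero] at this
    refine squeeze_zero (fun j => norm_nonneg _) (fun j => ?_) h1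
    exact (hXn j).trans (mul_le_mul_of_nonneg_left (hg3 j) hC.le)
  obtain ⟨Y, φ, hφ, hYm, hY1, hYlim⟩ := cs_normalise m X hXm hX0
  have hXφ : Tendsto (fun j => X (φ j)) atTop (𝓝 0) := hXlim.comp hφ.tendsto_atTop
  have h1 := cs_quot (fun j => X (φ j)) (fun j => ‖X (φ j)‖⁻¹) Y hXφ hYlim
  have hYk : Y ∈ k := by
    refine hk.seq (fun j => NormedSpace.exp (X (φ j))) (fun j => ‖X (φ j)‖) Y
      (fun j => hPP _) (fun j => norm_pos_iff.mpr (hX0 _)) ?_ h1
    have := hXφ.norm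
    rwa [norm_zero] at this
  have h2 : Y ∈ k ⊓ m := ⟨hYk, hYm⟩
  rw [hm.inf_eq_bot] at h2
  have h3 : Y = 0 := (Submodule.mem_bot ℝ).mp h2
  rw [h3, norm_zero] at hY1
  exact zero_ne_one hY1

end Pool.Agent.Helper83.CB
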