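import Pool.Agent.Helper83.CB.Defs2

/-!
# Module LIE: the Lie algebra of the isometry group
-/

open Filter Topology

namespace Pool.Agent.Helper83.CB

section general

variable {A : Type} [NormedRing A] [NormedAlgebra ℝ A] [CompleteSpace A]

theorem lie_conj (u v : A) (h1 : u * v = 1) (h2 : v * u = 1) (X : A) (t : ℝ) :
    NormedSpace.exp (t • (u * X * v)) = u * NormedSpace.exp (t • X) * v := by
  let _ : NormedAlgebra ℚ A := NormedAlgebra.restrictScalars ℚ ℝ A
  have h := NormedSpace.exp_units_conj (⟨u, v, h1, h2⟩ : Aˣ) (t • X)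
  have e : t • (u * X * v) = u * (t • X) * v := by
    rw [mul_smul_comm, smul_mul_assoc]
  rw [e]
  exact h

omit [CompleteSpace A] in
theorem lie_negneg (X : A) (t : ℝ) : -((-t) • X) = t • X := by rw [neg_smul, neg_neg]

theorem lie_exp_neg (X : A) : NormedSpace.exp X * NormedSpace.exp (-X) = 1 := by
  let _ : NormedAlgebra ℚ A := NormedAlgebra.restrictScalars ℚ ℝ A
  rw [← NormedSpace.exp_add_of_commute (Commute.neg_right (Commute.refl X)), add_neg_cancel,
    NormedSpace.exp_zero]

theorem lie_exp_neg' (X : A) : NormedSpace.exp (-X) * NormedSpace.exp X = 1 := by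
  have := lie_exp_neg (-X)
  rwa [neg_neg] at this

theorem lie_exp_nsmul (n : ℕ) (X : A) : NormedSpace.exp (n • X) = NormedSpace.exp X ^ n := by
  let _ : NormedAlgebra ℚ A := NormedAlgebra.restrictScalars ℚ ℝ A
  exact NormedSpace.exp_nsmul n X

theorem lie_exp_cont : Continuous (NormedSpace.exp : A → A) := by
  let _ : NormedAlgebra ℚ A := NormedAlgebra.restrictScalars ℚ ℝ A
  exact NormedSpace.exp_continuous

theorem lie_deriv (X : A) : HasDerivAt (fun t : ℝ => NormedSpace.exp (t • X)) X 0 := by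
  have h := hasDerivAt_exp_smul_const (𝕂 := ℝ) X (0 : ℝ)
  rwa [zero_smul, NormedSpace.exp_zero, one_mul] at h

/-- `(1.0)`: convergence of powers -/
theorem lie_lim (g : ℕ → A) (s : ℕ → ℝ) (X : A) (hs : ∀ j, 0 < s j)
    (hs0 : Tendsto s atTop (𝓝 0)) (hg : Tendsto (fun j => (s j)⁻¹ • (g j - 1)) atTop (𝓝 X))
    (t : ℝ) (ht : 0 ≤ t) :
    Tendsto (fun j => g j ^ ⌊t / s j⌋₊) atTop (𝓝 (NormedSpace.exp (t • X))) := by
  have hexp : HasStrictFDerivAt (NormedSpace.exp : A → A)
      ((ContinuousLinearEquiv.refl ℝ A : A ≃L[ℝ] A) : A →L[ℝ] A) 0 := hasStrictFDerivAt_exp_zero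
  have e0 : (NormedSpace.exp (0 : A)) = 1 := NormedSpace.exp_zero
  set L := hexp.localInverse (NormedSpace.exp : A → A) (ContinuousLinearEquiv.refl ℝ A) 0 with hL
  have hL1 : L 1 = 0 := by
    have := hexp.localInverse_apply_image
    rw [e0] at this
    exact this
  have hLd : HasFDerivAt L ((ContinuousLinearEquiv.refl ℝ A).symm : A →L[ℝ] A) 1 := by
    have := hexp.to_localInverse.hasFDerivAt
    rw [e0] at this
    exact this
  have hd0 : Tendsto (fun j => g j - 1) atTop (𝓝 0) := by
    have h1 := hs0.smul hg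
    rw [zero_smul] at h1
    refine h1.congr fun j => ?_
    rw [smul_smul, mul_inv_cancel₀ (hs j).ne', one_smul]
  have hg1 : Tendsto g atTop (𝓝 1) := by
    have h1 := hd0.add_const 1
    rw [zero_add] at h1
    exact h1.congr fun j => sub_add_cancel _ _
  have hright : ∀ᶠ j in atTop, NormedSpace.exp (L (g j)) = g j := by
    have h1 := hexp.eventually_right_inverse
    rw [e0] at h1
    exact hg1.eventually h1
  have hY : Tendsto (fun j => (s j)⁻¹ • L (g j)) atTop (𝓝 X) := by
    have h1 := (hasFDerivWithinAt_univ.mpr hLd).lim (c := fun j => (s j)⁻¹)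
      (d := fun j => g j - 1) (l := atTop) (v := X) hd0 (Eventually.of_forall fun _ => Set.mem_univ _)
      hg
    have h2 : Tendsto (fun j => (s j)⁻¹ • (L (1 + (g j - 1)) - L 1)) atTop (𝓝 X) := h1
    refine h2.congr fun j => ?_
    rw [hL1, sub_zero, add_sub_cancel]
  have hn : Tendsto (fun j => (⌊t / s j⌋₊ : ℝ) * s j) atTop (𝓝 t) := by
    have h1 : Tendsto (fun j => t - s j) atTop (𝓝 t) := by
      have := hs0.const_sub t
      rwa [sub_zero] at this
    refine tendsto_of_tendsto_of_tendsto_of_le_of_le h1 tendsto_const_nhds ?_ ?_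
    · intro j
      have h2 := (Nat.lt_floor_add_one (t / s j)).le
      have h3 : t ≤ ((⌊t / s j⌋₊ : ℝ) + 1) * s j := by
        rwa [div_le_iff₀ (hs j)] at h2
      show t - s j ≤ (⌊t / s j⌋₊ : ℝ) * s j
      linarith
    · intro j
      have h2 : (⌊t / s j⌋₊ : ℝ) ≤ t / s j := Nat.floor_le (div_nonneg ht (hs j).le)
      show (⌊t / s j⌋₊ : ℝ) * s j ≤ t
      rwa [le_div_iff₀ (hs j)] at h2
  have h3 : Tendsto (fun j => (⌊t / s j⌋₊ : ℕ) • L (g j)) atTop (𝓝 (t • X)) := by
    refine (hn.smul hY).congr fun j => ?_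
    rw [smul_smul, mul_assoc, mul_inv_cancel₀ (hs j).ne', mul_one, Nat.cast_smul_eq_nsmul]
  have h4 := (lie_exp_cont.tendsto (t • X)).comp h3
  refine h4.congr' ?_
  filter_upwards [hright] with j hj
  show NormedSpace.exp ((⌊t / s j⌋₊ : ℕ) • L (g j)) = _
  rw [lie_exp_nsmul, hj]

theorem lie_addlim (X Y : A) :
    Tendsto (fun j : ℕ => ((1 / ((j : ℝ) + 1)))⁻¹ •
      (NormedSpace.exp ((1 / ((j : ℝ) + 1)) • X) * NormedSpace.exp ((1 / ((j : ℝ) + 1)) • Y) - 1))
      atTop (𝓝 (X + Y)) := by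
  have h1 : HasDerivAt (fun t : ℝ => NormedSpace.exp (t • X) * NormedSpace.exp (t • Y))
      (X + Y) 0 := by
    have h2 := (lie_deriv X).mul (lie_deriv Y)
    rw [zero_smul, zero_smul, NormedSpace.exp_zero, mul_one, one_mul] at h2
    exact h2
  have h3 := hasDerivAt_iff_tendsto_slope_zero.mp h1
  have h4 : Tendsto (fun j : ℕ => 1 / ((j : ℝ) + 1)) atTop (𝓝[≠] 0) := by
    rw [tendsto_nhdsWithin_iff]
    refine ⟨tendsto_one_div_add_atTop_nhds_zero_nat, Eventually.of_forall fun j => ?_⟩
    have : (0 : ℝ) < 1 / ((j : ℝ) + 1) := by positivity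
    exact this.ne'
  refine (h3.comp h4).congr fun j => ?_
  simp only [Function.comp, zero_add, zero_smul, NormedSpace.exp_zero, mul_one]

theorem lie_brklim (X Y : A) :
    Tendsto (fun t : ℝ => t⁻¹ • (NormedSpace.exp (t • X) * Y * NormedSpace.exp (-(t • X)) - Y))
      (𝓝[≠] 0) (𝓝 (X * Y - Y * X)) := by
  have h1 : HasDerivAt (fun t : ℝ => NormedSpace.exp (t • X) * Y * NormedSpace.exp (t • (-X)))
      (X * Y - Y * X) 0 := by
    have h2 := ((lie_deriv X).mul_const Y).mul (lie_deriv (-X))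
    rw [zero_smul, zero_smul, NormedSpace.exp_zero, mul_one, one_mul, mul_neg,
      ← sub_eq_add_neg] at h2
    exact h2
  have h3 := hasDerivAt_iff_tendsto_slope_zero.mp h1
  refine h3.congr fun t => ?_
  simp only [zero_add, zero_smul, NormedSpace.exp_zero, mul_one, one_mul, smul_neg, neg_zero]

theorem lie_skew (X X' : A)
    (h : ∀ t : ℝ, NormedSpace.exp (t • X') * NormedSpace.exp (t • X) = 1) : X' = -X := by
  have h1 : HasDerivAt (fun t : ℝ => NormedSpace.exp (t • X') * NormedSpace.exp (t • X))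
      (X' + X) 0 := by
    have h2 := (lie_deriv X').mul (lie_deriv X)
    rw [zero_smul, zero_smul, NormedSpace.exp_zero, mul_one, one_mul] at h2
    exact h2
  have h2 : HasDerivAt (fun t : ℝ => NormedSpace.exp (t • X') * NormedSpace.exp (t • X))
      0 0 := by
    have h3 : (fun t : ℝ => NormedSpace.exp (t • X') * NormedSpace.exp (t • X)) =
      fun _ => (1 : A) := funext h
    rw [h3]
    exact hasDerivAt_const 0 1
  exact eq_neg_of_add_eq_zero_left (h1.unique h2)

end general

theorem lie_real_smul {n : ℕ} (t : ℝ) (X : M n) : t • X = (t : ℂ) • X := by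
  ext z i
  simp

theorem lie_star_smul {n : ℕ} (t : ℝ) (X : M n) : star (t • X) = t • star X := by
  rw [lie_real_smul, lie_real_smul, star_smul]
  simp

theorem lie_isClosed_k {n : ℕ} (k : Submodule ℝ (M n)) : IsClosed (k : Set (M n)) :=
  Submodule.closed_of_finiteDimensional k

theorem st_LIE (hGRP : ST_GRP) : ST_LIE := by
  intro n N0 hN hU
  obtain ⟨hcomp, hone, hmul, hstar⟩ := hGRP n N0 hN hU
  have hclosed : IsClosed (PP (n := n) (m := n) N0 N0) := hcomp.isClosed
  have hneg : ∀ X : M n, NormedSpace.exp X ∈ PP (n := n) (m := n) N0 N0 →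
      NormedSpace.exp (-X) ∈ PP (n := n) (m := n) N0 N0 := by
    intro X hX
    obtain ⟨h1, h2, h3⟩ := hstar _ hX
    have h4 : NormedSpace.exp (-X) = star (NormedSpace.exp X) := by
      have h5 := lie_exp_neg' X
      calc NormedSpace.exp (-X) = NormedSpace.exp (-X) *
            (NormedSpace.exp X * star (NormedSpace.exp X)) := by rw [h3, mul_one]
        _ = star (NormedSpace.exp X) := by rw [← mul_assoc, h5, one_mul]
    rw [h4]
    exact h1
  have hpow : ∀ g ∈ PP (n := n) (m := n) N0 N0, ∀ j : ℕ, g ^ j ∈ PP (n := n) (m := n) N0 N0 := by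
    intro g hg j
    induction j with
    | zero => rw [pow_zero]; exact hone
    | succ j ih => rw [pow_succ]; exact hmul _ ih _ hg
  -- (1.0)
  have hseq : ∀ (g : ℕ → M n) (s : ℕ → ℝ) (X : M n), (∀ j, g j ∈ PP N0 N0) → (∀ j, 0 < s j) →
      Tendsto s atTop (𝓝 0) → Tendsto (fun j => (s j)⁻¹ • (g j - 1)) atTop (𝓝 X) →
      ∀ t : ℝ, NormedSpace.exp (t • X) ∈ PP N0 N0 := by
    intro g s X hg hs hs0 hlim
    have hpos : ∀ t : ℝ, 0 ≤ t → NormedSpace.exp (t • X) ∈ PP N0 N0 := by
      intro t ht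
      have h1 := lie_lim g s X hs hs0 hlim t ht
      exact hclosed.mem_of_tendsto h1 (Eventually.of_forall fun j => hpow _ (hg j) _)
    intro t
    rcases le_total 0 t with ht | ht
    · exact hpos t ht
    · have h1 := hneg _ (hpos (-t) (by linarith))
      have h2 : -((-t) • X) = t • X := lie_negneg X t
      rwa [h2] at h1
  let k : Submodule ℝ (M n) :=
    { carrier := {X | ∀ t : ℝ, NormedSpace.exp (t • X) ∈ PP N0 N0}
      zero_mem' := by
        intro t
        rw [smul_zero, NormedSpace.exp_zero]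
        exact hone
      add_mem' := by
        intro X Y hX hY
        refine hseq (fun j : ℕ => NormedSpace.exp ((1 / ((j : ℝ) + 1)) • X) *
          NormedSpace.exp ((1 / ((j : ℝ) + 1)) • Y)) (fun j : ℕ => 1 / ((j : ℝ) + 1)) (X + Y)
          (fun j => hmul _ (hX _) _ (hY _)) (fun j => by positivity)
          tendsto_one_div_add_atTop_nhds_zero_nat (lie_addlim X Y)
      smul_mem' := by
        intro c X hX t
        rw [smul_smul]
        exact hX _ }
  have hk : ∀ X, X ∈ k ↔ ∀ t : ℝ, NormedSpace.exp (t • X) ∈ PP N0 N0 := fun X => Iff.rfl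
  have hskew : ∀ X ∈ k, star X = -X := by
    intro X hX
    apply lie_skew X (star X)
    intro t
    have h1 := (hstar _ (hX t)).2.1
    rw [NormedSpace.star_exp, lie_star_smul] at h1
    exact h1
  have had : ∀ g ∈ PP N0 N0, ∀ X ∈ k, g * X * star g ∈ k := by
    intro g hg X hX t
    obtain ⟨h1, h2, h3⟩ := hstar g hg
    have h4 := lie_conj g (star g) h3 h2 X t
    have h5 : NormedSpace.exp (t • (g * X * star g)) = g * NormedSpace.exp (t • X) * star g := h4
    rw [h5]
    exact hmul _ (hmul _ hg _ (hX t)) _ h1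
  refine ⟨k, hk, hskew, ?_, had, fun g s X hg hs hs0 hlim => hseq g s X hg hs hs0 hlim⟩
  intro X hX Y hY
  have h1 := lie_brklim X Y
  refine (lie_isClosed_k k).mem_of_tendsto h1 (Eventually.of_forall fun t => ?_)
  have h2 : NormedSpace.exp (-(t • X)) = star (NormedSpace.exp (t • X)) := by
    rw [NormedSpace.star_exp, lie_star_smul, hskew X hX, smul_neg]
  have h3 := had _ (hX t) Y hY
  rw [← h2] at h3
  exact k.smul_mem _ (k.sub_mem h3 hY)

end Pool.Agent.Helper83.CB
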