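import Pool.Agent.Helper83.CB.Defs2

/-!
# Module MOLL: mollification of Lipschitz maps
-/

open Filter Topology MeasureTheory ContinuousLinearMap

namespace Pool.Agent.Helper83.CB

/-- derivative of the convolution of a bump function and a Lipschitz function -/
theorem moll_deriv (ι : Type) [Fintype ι] (W : Type) [NormedAddCommGroup W] [NormedSpace ℝ W]
    [FiniteDimensional ℝ W] (f : (ι → ℝ) → W) (C : NNReal) (hf : LipschitzWith C f)
    (φ : ContDiffBump (0 : ι → ℝ)) (x₀ : ι → ℝ) :
    HasFDerivAt (convolution (φ.normed volume) f (lsmul ℝ ℝ) volume)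
      (convolution (φ.normed volume) (fderiv ℝ f) (lsmul ℝ ℝ) volume x₀) x₀ := by
  have hcomplete : CompleteSpace W := FiniteDimensional.complete ℝ W
  have hmeas : Measurable (fderiv ℝ f) := by
    borelize W
    exact measurable_fderiv ℝ f
  have hψc : Continuous (φ.normed volume) := φ.continuous_normed
  have hψi : Integrable (φ.normed volume) volume := φ.integrable_normed
  have hfc : Continuous f := hf.continuous
  have hcs : HasCompactSupport (φ.normed volume) := φ.hasCompactSupport_normed
  have h := hasFDerivAt_integral_of_dominated_loc_of_lip (𝕜 := ℝ) (μ := volume)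
    (F := fun (x : ι → ℝ) (t : ι → ℝ) => φ.normed volume t • f (x - t))
    (F' := fun t => φ.normed volume t • fderiv ℝ f (x₀ - t)) (x₀ := x₀) (s := Set.univ)
    (bound := fun t => φ.normed volume t * C) Filter.univ_mem ?_ ?_ ?_ ?_ ?_ ?_
  · exact h.2
  · refine Eventually.of_forall fun x => ?_
    exact (hψc.smul (hfc.comp (continuous_const.sub continuous_id))).aestronglyMeasurable
  · apply Continuous.integrable_of_hasCompactSupport
    · exact hψc.smul (hfc.comp (continuous_const.sub continuous_id))
    · exact hcs.smul_right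
  · apply hψc.aestronglyMeasurable.smul
    have h1 : Measurable fun t : ι → ℝ => fderiv ℝ f (x₀ - t) :=
      hmeas.comp (measurable_const.sub measurable_id)
    exact h1.aestronglyMeasurable
  · refine Eventually.of_forall fun t => ?_
    rw [lipschitzOnWith_univ]
    apply LipschitzWith.of_dist_le_mul
    intro x y
    rw [dist_eq_norm, dist_eq_norm, ← smul_sub, norm_smul]
    have h1 : 0 ≤ φ.normed volume t := φ.nonneg_normed t
    have h2 : ‖f (x - t) - f (y - t)‖ ≤ C * ‖x - y‖ := by
      have h3 := hf.dist_le_mul (x - t) (y - t)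
      rw [dist_eq_norm, dist_eq_norm] at h3
      have h4 : x - t - (y - t) = x - y := by abel
      rwa [h4] at h3
    have h5 : ((Real.nnabs (φ.normed volume t * C) : NNReal) : ℝ) = φ.normed volume t * C := by
      rw [Real.coe_nnabs, abs_of_nonneg (mul_nonneg h1 C.coe_nonneg)]
    rw [h5, Real.norm_of_nonneg h1, mul_assoc]
    exact mul_le_mul_of_nonneg_left h2 h1
  · exact hψi.mul_const _
  · have h1 : ∀ᵐ x ∂(volume : Measure (ι → ℝ)), DifferentiableAt ℝ f x :=
      hf.ae_differentiableAt
    have h2 : ∀ᵐ t ∂(volume : Measure (ι → ℝ)), DifferentiableAt ℝ f (x₀ - t) :=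
      (quasiMeasurePreserving_sub_left_of_right_invariant volume x₀).ae h1
    filter_upwards [h2] with t ht
    have h3 : HasFDerivAt (fun x : ι → ℝ => f (x - t)) (fderiv ℝ f (x₀ - t)) x₀ := by
      exact (hasFDerivAt_comp_sub t).mpr ht.hasFDerivAt
    exact h3.const_smul _

theorem st_MOLL : ST_MOLL := by
  intro ι _ W _ _ _ f C hf
  have hcomplete : CompleteSpace W := FiniteDimensional.complete ℝ W
  have hmeas : Measurable (fderiv ℝ f) := by
    borelize W
    exact measurable_fderiv ℝ f
  let φ : ℕ → ContDiffBump (0 : ι → ℝ) := fun k =>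
    { rIn := 1 / ((k : ℝ) + 1)
      rOut := 2 * (1 / ((k : ℝ) + 1))
      rIn_pos := by positivity
      rIn_lt_rOut := by
        have : (0 : ℝ) < 1 / ((k : ℝ) + 1) := by positivity
        linarith }
  have hφ : Tendsto (fun k => (φ k).rOut) atTop (𝓝 0) := by
    have h1 : Tendsto (fun k : ℕ => 2 * (1 / ((k : ℝ) + 1))) atTop (𝓝 0) := by
      have := (tendsto_one_div_add_atTop_nhds_zero_nat (𝕜 := ℝ)).const_mul 2
      rwa [mul_zero] at this
    exact h1
  have hnorm : ∀ x, ‖fderiv ℝ f x‖ ≤ C := fun x => norm_fderiv_le_of_lipschitz ℝ hf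
  have hder := fun k x => moll_deriv ι W f C hf (φ k) x
  refine ⟨fun k => convolution ((φ k).normed volume) f (lsmul ℝ ℝ) volume, ?_, ?_, ?_, ?_⟩
  · intro k
    exact (φ k).hasCompactSupport_normed.contDiff_convolution_left _ (φ k).contDiff_normed
      hf.continuous.locallyIntegrable
  · intro k
    apply lipschitzWith_of_nnnorm_fderiv_le (𝕜 := ℝ) (fun x => (hder k x).differentiableAt)
    intro x
    rw [(hder k x).fderiv]
    rw [← NNReal.coe_le_coe, coe_nnnorm]
    unfold convolution
    refine (norm_integral_le_integral_norm _).trans ?_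
    have h1 : ∫ t, (φ k).normed volume t * C = C := by
      rw [integral_mul_const, (φ k).integral_normed, one_mul]
    rw [← h1]
    apply integral_mono_of_nonneg (Eventually.of_forall fun t => norm_nonneg _)
      ((φ k).integrable_normed.mul_const _)
    refine Eventually.of_forall fun t => ?_
    have h2 : 0 ≤ (φ k).normed volume t := (φ k).nonneg_normed t
    show ‖(φ k).normed volume t • fderiv ℝ f (x - t)‖ ≤ (φ k).normed volume t * C
    rw [norm_smul, Real.norm_of_nonneg h2]
    exact mul_le_mul_of_nonneg_left (hnorm _) h2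
  · intro x
    exact ContDiffBump.convolution_tendsto_right_of_continuous hφ hf.continuous x
  · have hloc : LocallyIntegrable (fderiv ℝ f) (volume : Measure (ι → ℝ)) := by
      refine (locallyIntegrable_const (C : ℝ)).mono hmeas.aestronglyMeasurable
        (Eventually.of_forall fun x => ?_)
      rw [Real.norm_of_nonneg C.coe_nonneg]
      exact hnorm x
    have h1 := ContDiffBump.ae_convolution_tendsto_right_of_locallyIntegrable (K := 2) hφ
      (Eventually.of_forall fun k => le_of_eq rfl) hloc
    filter_upwards [h1] with x hx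
    refine hx.congr fun k => ?_
    rw [(hder k x).fderiv]

end Pool.Agent.Helper83.CB
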